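import Mathlib

set_option autoImplicit false

namespace Pool.Agent.Results.MP_810de6_an.LinftyExample

open Filter Topology
open scoped ENNReal

/-- The family `x : ι → E` is an extended M-basis of the normed space `E` over `𝕜`: there are
continuous functionals `f i` with `f j (x i) = δ_{ij}`, which are total on `E`, and the closed
linear span of the `x i` is the whole of `E`. -/
def IsExtendedMBasis (𝕜 : Type) [RCLike 𝕜] {E : Type} [NormedAddCommGroup E] [NormedSpace 𝕜 E]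
    {ι : Type} (x : ι → E) : Prop :=
  ∃ f : ι → (E →L[𝕜] 𝕜),
    (∀ i, f i (x i) = 1) ∧ (∀ i j, i ≠ j → f j (x i) = 0) ∧
    (∀ y : E, (∀ i, f i y = 0) → y = 0) ∧
    (Submodule.span 𝕜 (Set.range x)).topologicalClosure = ⊤

noncomputable section

variable (𝕜 : Type) [RCLike 𝕜]

/-- `ℓ^∞`. -/
abbrev Linf := lp (fun _ : ℕ => 𝕜) ∞

/-- The index set: a point of the unit ball of `ℓ^∞` and a natural number. -/
abbrev J := {y : Linf 𝕜 // ‖y‖ ≤ 1} × ℕ

/-- `ℓ^1(J)`. -/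
abbrev Lone := lp (fun _ : J 𝕜 => 𝕜) 1

variable {𝕜}

/-- The truncation `y · 1_{[k, ∞)}`. -/
def trunc (k : ℕ) (y : Linf 𝕜) : Linf 𝕜 :=
  ⟨fun n => if k ≤ n then y n else 0, by
    apply memℓp_infty
    refine ⟨‖y‖, ?_⟩
    rintro _ ⟨n, rfl⟩
    dsimp only
    split_ifs
    · exact lp.norm_apply_le_norm (by simp) y n
    · simp⟩

lemma trunc_apply (k : ℕ) (y : Linf 𝕜) (n : ℕ) :
    (trunc k y) n = if k ≤ n then y n else 0 := rfl

open Classical in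
/-- Unit vectors of `ℓ^1(J)`. -/
def e1 (j : J 𝕜) : Lone 𝕜 := lp.single 1 j 1

/-- Unit vectors in `ℓ^∞`. -/
def e0 (n : ℕ) : Linf 𝕜 := lp.single ∞ n 1

/-- The coefficient of the functional `ψ_n` at `j`. -/
def coef (n : ℕ) (j : J 𝕜) : 𝕜 := if j.2 ≤ n then ((j.2 : 𝕜) + 1) * j.1.1 n else 0

lemma coef_norm (n : ℕ) (j : J 𝕜) : ‖coef n j‖ ≤ (n : ℝ) + 1 := by
  unfold coef
  split_ifs with h
  · rw [norm_mul]
    have h1 : ‖((j.2 : 𝕜) + 1)‖ ≤ (n : ℝ) + 1 := by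
      refine (norm_add_le _ _).trans ?_
      rw [norm_one, RCLike.norm_natCast]
      have : (j.2 : ℝ) ≤ n := by exact_mod_cast h
      linarith
    have h2 : ‖j.1.1 n‖ ≤ 1 := (lp.norm_apply_le_norm (by simp) j.1.1 n).trans j.1.2
    calc _ ≤ ((n : ℝ) + 1) * 1 := mul_le_mul h1 h2 (norm_nonneg _) (by positivity)
      _ = _ := mul_one _
  · simp; positivity

lemma summable_norm (h : Lone 𝕜) : Summable (fun j => ‖h j‖) := by
  have := (lp.memℓp h).summable (p := 1) (by simp)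
  simpa using this

lemma norm_eq (h : Lone 𝕜) : ‖h‖ = ∑' j, ‖h j‖ := by
  have := lp.norm_eq_tsum_rpow (p := 1) (by simp) h
  simpa using this

lemma summable_coef (n : ℕ) (h : Lone 𝕜) : Summable (fun j => coef n j * h j) := by
  apply Summable.of_norm_bounded (g := fun j => ((n : ℝ) + 1) * ‖h j‖)
    ((summable_norm h).mul_left _)
  intro j
  rw [norm_mul]
  exact mul_le_mul_of_nonneg_right (coef_norm n j) (norm_nonneg _)

/-- The functional `ψ_n` on `ℓ^1(J)`. -/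
def psi (n : ℕ) : Lone 𝕜 →L[𝕜] 𝕜 :=
  LinearMap.mkContinuous
    { toFun := fun h => ∑' j, coef n j * h j
      map_add' := fun x y => by
        rw [← (summable_coef n x).tsum_add (summable_coef n y)]
        congr 1
        funext j
        rw [lp.coeFn_add, Pi.add_apply, mul_add]
      map_smul' := fun c x => by
        rw [RingHom.id_apply, smul_eq_mul, ← tsum_mul_left]
        congr 1
        funext j
        rw [lp.coeFn_smul, Pi.smul_apply, smul_eq_mul]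
        ring } ((n : ℝ) + 1) (fun h => by
      show ‖∑' j, coef n j * h j‖ ≤ _
      rw [norm_eq, ← tsum_mul_left]
      apply tsum_of_norm_bounded ((summable_norm h).mul_left _).hasSum
      intro j
      rw [norm_mul]
      exact mul_le_mul_of_nonneg_right (coef_norm n j) (norm_nonneg _))

lemma psi_apply (n : ℕ) (h : Lone 𝕜) : psi n h = ∑' j, coef n j * h j := rfl

lemma e1_apply_self (j : J 𝕜) : (e1 j : Lone 𝕜) j = 1 := by
  classical
  simp [e1]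

lemma e1_apply_ne {i j : J 𝕜} (h : i ≠ j) : (e1 j : Lone 𝕜) i = 0 := by
  classical
  simp [e1, h]

lemma e0_apply_self (j : ℕ) : (e0 j : Linf 𝕜) j = 1 := by
  simp [e0]

lemma e0_apply_ne {i j : ℕ} (h : i ≠ j) : (e0 j : Linf 𝕜) i = 0 := by
  simp [e0, h]

lemma psi_e1 (n : ℕ) (j : J 𝕜) : psi n (e1 j) = coef n j := by
  rw [psi_apply, tsum_eq_single j]
  · rw [e1_apply_self, mul_one]
  · intro i hi
    rw [e1_apply_ne hi, mul_zero]

lemma norm_e1 (j : J 𝕜) : ‖(e1 j : Lone 𝕜)‖ = 1 := by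
  classical
  rw [e1, lp.norm_single (by simp)]
  simp

/-- Evaluation at `n` on `ℓ^∞`. -/
def ev0 (n : ℕ) : Linf 𝕜 →L[𝕜] 𝕜 :=
  LinearMap.mkContinuous
    { toFun := fun y => y n
      map_add' := fun x y => by rw [lp.coeFn_add, Pi.add_apply]
      map_smul' := fun c x => by rw [lp.coeFn_smul, Pi.smul_apply, RingHom.id_apply] } 1
    (fun y => by
      rw [one_mul]
      exact lp.norm_apply_le_norm (by simp) y n)

lemma ev0_apply (n : ℕ) (y : Linf 𝕜) : (ev0 n : Linf 𝕜 →L[𝕜] 𝕜) y = y n := rfl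

/-- Evaluation at `j` on `ℓ^1(J)`. -/
def ev1 (j : J 𝕜) : Lone 𝕜 →L[𝕜] 𝕜 :=
  LinearMap.mkContinuous
    { toFun := fun y => y j
      map_add' := fun x y => by rw [lp.coeFn_add, Pi.add_apply]
      map_smul' := fun c x => by rw [lp.coeFn_smul, Pi.smul_apply, RingHom.id_apply] } 1
    (fun y => by
      rw [one_mul]
      exact lp.norm_apply_le_norm (by simp) y j)

lemma ev1_apply (j : J 𝕜) (y : Lone 𝕜) : (ev1 j : Lone 𝕜 →L[𝕜] 𝕜) y = y j := rfl

variable (𝕜) in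
/-- The space `ℓ^∞ × ℓ^1(J)`. -/
abbrev EE := Linf 𝕜 × Lone 𝕜

/-- The vectors of the system. -/
def vec : ℕ ⊕ J 𝕜 → EE 𝕜
  | Sum.inl n => (e0 n, 0)
  | Sum.inr j => (((j.2 : 𝕜) + 1) • trunc j.2 j.1.1, e1 j)

/-- The functionals of the system. -/
def fn : ℕ ⊕ J 𝕜 → (EE 𝕜 →L[𝕜] 𝕜)
  | Sum.inl n => (ev0 n).comp (ContinuousLinearMap.fst 𝕜 _ _) -
      (psi n).comp (ContinuousLinearMap.snd 𝕜 _ _)
  | Sum.inr j => (ev1 j).comp (ContinuousLinearMap.snd 𝕜 _ _)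

lemma fn_inl (n : ℕ) (z : EE 𝕜) : fn (Sum.inl n) z = z.1 n - psi n z.2 := rfl

lemma fn_inr (j : J 𝕜) (z : EE 𝕜) : fn (Sum.inr j) z = z.2 j := rfl

lemma fn_self (i : ℕ ⊕ J 𝕜) : fn i (vec i) = 1 := by
  rcases i with n | j
  · rw [fn_inl]
    simp only [vec]
    rw [e0_apply_self, map_zero, sub_zero]
  · rw [fn_inr]
    simp only [vec]
    rw [e1_apply_self]

lemma fn_ne (i j : ℕ ⊕ J 𝕜) (h : i ≠ j) : fn j (vec i) = 0 := by
  rcases i with n | i <;> rcases j with m | j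
  · rw [fn_inl]
    simp only [vec]
    have : m ≠ n := fun e => h (by rw [e])
    rw [e0_apply_ne this, map_zero, sub_zero]
  · rw [fn_inr]
    simp only [vec]
    rfl
  · rw [fn_inl]
    simp only [vec]
    rw [psi_e1, lp.coeFn_smul, Pi.smul_apply, trunc_apply, coef, smul_eq_mul]
    split_ifs
    · exact sub_self _
    · rw [mul_zero, sub_zero]
  · rw [fn_inr]
    simp only [vec]
    have : j ≠ i := fun e => h (by rw [e])
    rw [e1_apply_ne this]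

lemma total (z : EE 𝕜) (hz : ∀ i, fn i z = 0) : z = 0 := by
  have h2 : z.2 = 0 := by
    ext j
    have := hz (Sum.inr j)
    rw [fn_inr] at this
    rw [this]
    rfl
  have h1 : z.1 = 0 := by
    ext n
    have := hz (Sum.inl n)
    rw [fn_inl, h2, map_zero, sub_zero] at this
    rw [this]
    rfl
  exact Prod.ext h1 h2

/-- Finitely supported difference. -/
lemma sub_trunc (k : ℕ) (y : Linf 𝕜) :
    y = trunc k y + ∑ n ∈ Finset.range k, (y n) • (e0 n : Linf 𝕜) := by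
  ext m
  rw [lp.coeFn_add, Pi.add_apply, trunc_apply, lp.coeFn_sum, Finset.sum_apply]
  simp only [lp.coeFn_smul, Pi.smul_apply, smul_eq_mul]
  by_cases h : k ≤ m
  · rw [if_pos h, Finset.sum_eq_zero, add_zero]
    intro n hn
    rw [Finset.mem_range] at hn
    rw [e0_apply_ne (by omega), mul_zero]
  · rw [if_neg h, Finset.sum_eq_single m, e0_apply_self, mul_one, zero_add]
    · intro n _ hnm
      rw [e0_apply_ne hnm.symm, mul_zero]
    · intro hm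
      rw [Finset.mem_range] at hm
      omega

variable (𝕜) in
/-- The closed linear span of the system. -/
def SS : Submodule 𝕜 (EE 𝕜) := (Submodule.span 𝕜 (Set.range (vec (𝕜 := 𝕜)))).topologicalClosure

lemma vec_mem (i : ℕ ⊕ J 𝕜) : vec i ∈ SS 𝕜 :=
  Submodule.le_topologicalClosure _ (Submodule.subset_span ⟨i, rfl⟩)

lemma fin_mem (k : ℕ) (y : Linf 𝕜) :
    ((∑ n ∈ Finset.range k, (y n) • (e0 n : Linf 𝕜), 0) : EE 𝕜) ∈ SS 𝕜 := by
  have : ((∑ n ∈ Finset.range k, (y n) • (e0 n : Linf 𝕜), 0) : EE 𝕜) =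
      ∑ n ∈ Finset.range k, (y n) • vec (Sum.inl n) := by
    apply Prod.ext
    · rw [Prod.fst_sum]
      rfl
    · rw [Prod.snd_sum]
      simp [vec]
  rw [this]
  exact Submodule.sum_mem _ fun n _ => Submodule.smul_mem _ _ (vec_mem _)

lemma approx_mem (y : {y : Linf 𝕜 // ‖y‖ ≤ 1}) (k : ℕ) :
    ((y.1, ((k : 𝕜) + 1)⁻¹ • e1 (y, k)) : EE 𝕜) ∈ SS 𝕜 := by
  have hk : ((k : 𝕜) + 1) ≠ 0 := by
    exact_mod_cast Nat.succ_ne_zero k
  have h1 := Submodule.smul_mem (SS 𝕜) ((k : 𝕜) + 1)⁻¹ (vec_mem (Sum.inr (y, k)))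
  have h2 := Submodule.add_mem _ h1 (fin_mem k y.1)
  have h3 : ((k : 𝕜) + 1)⁻¹ • vec (Sum.inr (y, k)) +
      ((∑ n ∈ Finset.range k, (y.1 n) • (e0 n : Linf 𝕜), 0) : EE 𝕜) =
      ((y.1, ((k : 𝕜) + 1)⁻¹ • e1 (y, k)) : EE 𝕜) := by
    apply Prod.ext
    · show ((k : 𝕜) + 1)⁻¹ • (((k : 𝕜) + 1) • trunc k y.1) +
        ∑ n ∈ Finset.range k, (y.1 n) • (e0 n : Linf 𝕜) = y.1
      rw [smul_smul, inv_mul_cancel₀ hk, one_smul]
      exact (sub_trunc k y.1).symm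
    · show ((k : 𝕜) + 1)⁻¹ • e1 (y, k) + 0 = _
      rw [add_zero]
  rwa [h3] at h2

lemma isClosed_SS : IsClosed (SS 𝕜 : Set (EE 𝕜)) := Submodule.isClosed_topologicalClosure _

lemma ball_mem (y : {y : Linf 𝕜 // ‖y‖ ≤ 1}) : ((y.1, 0) : EE 𝕜) ∈ SS 𝕜 := by
  apply isClosed_SS.mem_of_tendsto (f := fun k : ℕ =>
    ((y.1, ((k : 𝕜) + 1)⁻¹ • e1 (y, k)) : EE 𝕜)) (b := atTop) _
    (Eventually.of_forall fun k => approx_mem y k)
  apply Filter.Tendsto.prodMk_nhds tendsto_const_nhds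
  rw [tendsto_zero_iff_norm_tendsto_zero]
  have : (fun k : ℕ => ‖((k : 𝕜) + 1)⁻¹ • (e1 (y, k) : Lone 𝕜)‖) =
      fun k : ℕ => 1 / ((k : ℝ) + 1) := by
    funext k
    rw [norm_smul, norm_e1, mul_one, norm_inv]
    have h1 : ((k : 𝕜) + 1) = ((k + 1 : ℕ) : 𝕜) := by push_cast; rfl
    rw [h1, RCLike.norm_natCast]
    push_cast
    rw [one_div]
  rw [this]
  exact tendsto_one_div_add_atTop_nhds_zero_nat

lemma fst_mem (y : Linf 𝕜) : ((y, 0) : EE 𝕜) ∈ SS 𝕜 := by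
  by_cases hy : y = 0
  · rw [hy]
    exact Submodule.zero_mem _
  · have hn : 0 < ‖y‖ := norm_pos_iff.mpr hy
    have h1 := ball_mem (⟨((‖y‖⁻¹ : ℝ) : 𝕜) • y, by
      rw [norm_smul, RCLike.norm_ofReal, abs_of_pos (by positivity), inv_mul_cancel₀ hn.ne']⟩ :
      {y : Linf 𝕜 // ‖y‖ ≤ 1})
    have h2 := Submodule.smul_mem (SS 𝕜) ((‖y‖ : ℝ) : 𝕜) h1
    have h3 : ((‖y‖ : ℝ) : 𝕜) • (((((‖y‖⁻¹ : ℝ) : 𝕜) • y, 0)) : EE 𝕜) = ((y, 0) : EE 𝕜) := by
      apply Prod.ext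
      · show ((‖y‖ : ℝ) : 𝕜) • (((‖y‖⁻¹ : ℝ) : 𝕜) • y) = y
        rw [smul_smul, ← RCLike.ofReal_mul, mul_inv_cancel₀ hn.ne', RCLike.ofReal_one, one_smul]
      · exact smul_zero _
    rwa [h3] at h2

lemma e1_mem (j : J 𝕜) : ((0, e1 j) : EE 𝕜) ∈ SS 𝕜 := by
  have h1 := Submodule.sub_mem _ (vec_mem (Sum.inr j)) (fst_mem (((j.2 : 𝕜) + 1) • trunc j.2 j.1.1))
  have h2 : vec (Sum.inr j) - ((((j.2 : 𝕜) + 1) • trunc j.2 j.1.1, 0) : EE 𝕜) =
      ((0, e1 j) : EE 𝕜) := by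
    apply Prod.ext
    · exact sub_self _
    · exact sub_zero _
  rwa [h2] at h1

lemma snd_mem (h : Lone 𝕜) : ((0, h) : EE 𝕜) ∈ SS 𝕜 := by
  classical
  have hs : HasSum (fun j : J 𝕜 => (lp.single 1 j (h j) : Lone 𝕜)) h :=
    lp.hasSum_single (by simp) h
  have hs2 : HasSum (fun j : J 𝕜 => ((0, (lp.single 1 j (h j) : Lone 𝕜)) : EE 𝕜)) (0, h) := by
    have := (ContinuousLinearMap.inr 𝕜 (Linf 𝕜) (Lone 𝕜)).hasSum hs
    exact this
  apply isClosed_SS.mem_of_tendsto hs2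
  refine Eventually.of_forall fun s => Submodule.sum_mem _ fun j _ => ?_
  have h1 := Submodule.smul_mem (SS 𝕜) (h j) (e1_mem j)
  have h2 : (h j) • ((0, e1 j) : EE 𝕜) = ((0, (lp.single 1 j (h j) : Lone 𝕜)) : EE 𝕜) := by
    apply Prod.ext
    · exact smul_zero _
    · show (h j) • e1 j = lp.single 1 j (h j)
      rw [e1, ← lp.single_smul, smul_eq_mul, mul_one]
  rwa [h2] at h1

lemma SS_eq_top : SS 𝕜 = ⊤ := by
  rw [eq_top_iff]
  rintro ⟨y, h⟩ -
  have h1 := Submodule.add_mem _ (fst_mem y) (snd_mem h)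
  have h2 : ((y, 0) : EE 𝕜) + ((0, h) : EE 𝕜) = ((y, h) : EE 𝕜) := by
    apply Prod.ext
    · exact add_zero _
    · exact zero_add _
  rwa [h2] at h1

variable (𝕜) in
/-- The subspace `ℓ^∞ × 0`. -/
def G : Submodule 𝕜 (EE 𝕜) := (ContinuousLinearMap.snd 𝕜 (Linf 𝕜) (Lone 𝕜)).ker

lemma mem_G (x : EE 𝕜) : x ∈ G 𝕜 ↔ x.2 = 0 := by
  simp [G]

/-- The identification of `ℓ^∞ × 0` with `ℓ^∞`. -/
def equivG : G 𝕜 ≃L[𝕜] Linf 𝕜 :=
  ContinuousLinearEquiv.equivOfInverse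
    ((ContinuousLinearMap.fst 𝕜 (Linf 𝕜) (Lone 𝕜)).comp (G 𝕜).subtypeL)
    ((ContinuousLinearMap.inl 𝕜 (Linf 𝕜) (Lone 𝕜)).codRestrict (G 𝕜)
      (fun v => by rw [mem_G]; simp))
    (by
      rintro ⟨x, hx⟩
      rw [mem_G] at hx
      apply Subtype.ext
      exact Prod.ext rfl hx.symm)
    (by
      intro v
      rfl)

/-- Over the reals and over the complex numbers there is a Banach space (namely
`ℓ^∞ × ℓ^1(J)` with `J` of the cardinality of the continuum) with an extended M-basis and with a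
closed subspace isomorphic to `ℓ^∞`. -/
theorem result (𝕜 : Type) [RCLike 𝕜] :
    ∃ (E : Type) (_ : NormedAddCommGroup E) (_ : NormedSpace 𝕜 E) (_ : CompleteSpace E)
      (ι : Type) (x : ι → E), IsExtendedMBasis 𝕜 x ∧
      ∃ G : Submodule 𝕜 E, IsClosed (G : Set E) ∧
        Nonempty (G ≃L[𝕜] lp (fun _ : ℕ => 𝕜) ∞) := by
  refine ⟨EE 𝕜, inferInstance, inferInstance, inferInstance, ℕ ⊕ J 𝕜, vec,
    ⟨fn, fn_self, fn_ne, total, SS_eq_top⟩, G 𝕜, ?_, ⟨equivG⟩⟩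
  exact (ContinuousLinearMap.snd 𝕜 (Linf 𝕜) (Lone 𝕜)).isClosed_ker

end

end Pool.Agent.Results.MP_810de6_an.LinftyExample
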